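import Pool.Agent.AIM3.Count2

/-!
# Orders of loops of class at least three with abelian inner mapping group

Let `Q` be a nilpotent loop of nilpotency class at least three whose inner mapping group is abelian and whose
multiplication group is finite. Then `Mlt(Q)` has order at least `8192`, `Q` has order at least `128` and `Inn(Q)`
has order at least `64`.
-/

set_option autoImplicit false

namespace Pool.Agent.Results.MP_f8f515_al.OrderBound

/-- `Q` with its product and its element `1` is a loop. -/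
structure IsLoop (Q : Type) [Mul Q] [One Q] : Prop where
  one_mul : ∀ x : Q, 1 * x = x
  mul_one : ∀ x : Q, x * 1 = x
  left_div : ∀ a b : Q, ∃! x : Q, a * x = b
  right_div : ∀ a b : Q, ∃! y : Q, y * a = b

/-- The multiplication group: the group of permutations generated by all left and right translations. -/
def Mlt (Q : Type) [Mul Q] : Subgroup (Equiv.Perm Q) :=
  Subgroup.closure {p | ∃ a : Q, (∀ x, p x = a * x) ∨ (∀ x, p x = x * a)}

/-- The inner mapping group: the elements of the multiplication group which fix `1`. -/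
def Inn (Q : Type) [Mul Q] [One Q] : Subgroup (Equiv.Perm Q) := Mlt Q ⊓ MulAction.stabilizer (Equiv.Perm Q) (1 : Q)

/-- `v` lies in the coset `u S`. -/
def Cong {Q : Type} [Mul Q] (S : Set Q) (u v : Q) : Prop := ∃ n ∈ S, v = u * n

/-- The upper central series: `Z 0 = {1}` and `Z (k + 1)` is the set of all `a` which are central modulo `Z k`. -/
def Z (Q : Type) [Mul Q] [One Q] : ℕ → Set Q
  | 0 => {1}
  | (k + 1) => {a | ∀ x y : Q, Cong (Z Q k) (a * x) (x * a) ∧ Cong (Z Q k) ((a * x) * y) (a * (x * y)) ∧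
      Cong (Z Q k) ((x * a) * y) (x * (a * y)) ∧ Cong (Z Q k) ((x * y) * a) (x * (y * a))}

open Pool.Agent.AIM3

/-- the loop structure with divisions -/
noncomputable def toLp {Q : Type} [Mul Q] [One Q] (h : IsLoop Q) : Lp Q :=
  { (inferInstance : Mul Q), (inferInstance : One Q) with
    ld := fun a b => (h.left_div a b).choose
    rd := fun b a => (h.right_div a b).choose
    one_mul' := h.one_mul
    mul_one' := h.mul_one
    mul_ld := fun a b => (h.left_div a b).choose_spec.1
    ld_mul := fun a b => ((h.left_div a (a * b)).choose_spec.2 b rfl).symm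
    rd_mul := fun a b => (h.right_div a b).choose_spec.1
    mul_rd := fun a b => ((h.right_div a (b * a)).choose_spec.2 b rfl).symm }

theorem Mlt_eq {Q : Type} [inst : Lp Q] : MltS Q = Mlt Q := by
  unfold MltS Mlt
  congr 1
  ext p
  constructor
  · rintro (⟨a, rfl⟩ | ⟨a, rfl⟩)
    · exact ⟨a, Or.inl fun x => rfl⟩
    · exact ⟨a, Or.inr fun x => rfl⟩
  · rintro ⟨a, h | h⟩
    · exact Or.inl ⟨a, Equiv.ext fun x => (h x).symm⟩
    · exact Or.inr ⟨a, Equiv.ext fun x => (h x).symm⟩

theorem Z_eq {Q : Type} [inst : Lp Q] (k : ℕ) : Z Q k = Zs Q k := by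
  induction k with
  | zero => rfl
  | succ k ih =>
    ext a
    rw [j37_step]
    show (∀ x y : Q, Cong (Z Q k) (a * x) (x * a) ∧ Cong (Z Q k) ((a * x) * y) (a * (x * y)) ∧
      Cong (Z Q k) ((x * a) * y) (x * (a * y)) ∧ Cong (Z Q k) ((x * y) * a) (x * (y * a))) ↔ _
    rw [ih]
    constructor
    · intro h x y
      obtain ⟨h1, h2, h3, h4⟩ := h x y
      exact ⟨(j37_ex_iff k _ _).1 h1, (j37_ex_iff k _ _).1 h2, (j37_ex_iff k _ _).1 h3, (j37_ex_iff k _ _).1 h4⟩
    · intro h x y
      obtain ⟨h1, h2, h3, h4⟩ := h x y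
      exact ⟨(j37_ex_iff k _ _).2 h1, (j37_ex_iff k _ _).2 h2, (j37_ex_iff k _ _).2 h3, (j37_ex_iff k _ _).2 h4⟩

/-- orbit and stabiliser -/
def orbEquiv (Q : Type) [Lp Q] : MG Q ≃ Q × H Q where
  toFun g := (g • (1 : Q), ⟨(L (g • (1 : Q)))⁻¹ * g, by
    rw [mem_H, mul_smul, L_inv_smul, ld_self]⟩)
  invFun p := L p.1 * (p.2 : MG Q)
  left_inv g := by
    show L (g • (1 : Q)) * ((L (g • (1 : Q)))⁻¹ * g) = g
    group
  right_inv p := by
    obtain ⟨q, h, hh⟩ := p
    have h1 : h • (1 : Q) = 1 := hh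
    have e : (L q * h) • (1 : Q) = q := by rw [mul_smul, h1, L_smul, mul_one']
    apply Prod.ext
    · exact e
    · apply Subtype.ext
      show (L ((L q * h) • (1 : Q)))⁻¹ * (L q * h) = h
      rw [e]; group

/-- the inner mapping group as a subgroup of the permutations -/
def innEquiv (Q : Type) [Lp Q] : H Q ≃ Inn Q where
  toFun h := ⟨(h.1).1, by
    refine ⟨?_, ?_⟩
    · rw [← Mlt_eq]; exact (h.1).2
    · exact h.2⟩
  invFun p := ⟨⟨p.1, by
    have h := p.2.1
    rw [← Mlt_eq] at h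
    exact h⟩, p.2.2⟩
  left_inv h := by rfl
  right_inv p := by rfl

theorem core (Q : Type) [inst : Lp Q] (hab : ∀ f ∈ Inn Q, ∀ g ∈ Inn Q, f * g = g * f)
    (hn : ∃ n, Z Q n = Set.univ) (h2 : Z Q 2 ≠ Set.univ) (hfin : Finite (Mlt Q)) :
    8192 ≤ Nat.card (Mlt Q) ∧ 128 ≤ Nat.card Q ∧ 64 ≤ Nat.card (Inn Q) := by
  have hM : MltS Q = Mlt Q := Mlt_eq
  haveI : AbInn Q := ⟨by
    intro a ha b hb
    apply Subtype.ext
    exact hab a.1 (innEquiv Q ⟨a, ha⟩).2 b.1 (innEquiv Q ⟨b, hb⟩).2⟩
  haveI : Finite (MG Q) := by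
    show Finite ↥(MltS Q)
    rw [hM]; exact hfin
  obtain ⟨n, hn⟩ := hn
  rw [Z_eq] at hn h2
  have h := orders hn h2
  have e1 : Nat.card (MG Q) = Nat.card (Mlt Q) := by
    show Nat.card ↥(MltS Q) = _
    rw [hM]
  have e2 : Nat.card (MG Q) = Nat.card Q * Nat.card (H Q) := by
    rw [Nat.card_congr (orbEquiv Q), Nat.card_prod]
  have e3 : Nat.card (H Q) = Nat.card (Inn Q) := Nat.card_congr (innEquiv Q)
  have hpos : 0 < Nat.card (H Q) := by omega
  refine ⟨?_, ?_, ?_⟩
  · rw [← e1]; omega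
  · have h3 : 128 * Nat.card (H Q) ≤ Nat.card Q * Nat.card (H Q) := e2 ▸ h.1
    exact Nat.le_of_mul_le_mul_right h3 hpos
  · rw [← e3]; exact h.2

/-- Every nilpotent loop of class at least three with abelian inner mapping group and finite multiplication group
has multiplication group of order at least `8192`, order at least `128` and inner mapping group of order at least
`64`. -/
theorem result : ∀ (Q : Type) [Mul Q] [One Q], IsLoop Q →
    (∀ f ∈ Inn Q, ∀ g ∈ Inn Q, f * g = g * f) →
    (∃ n, Z Q n = Set.univ) → Z Q 2 ≠ Set.univ → Finite (Mlt Q) →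
    8192 ≤ Nat.card (Mlt Q) ∧ 128 ≤ Nat.card Q ∧ 64 ≤ Nat.card (Inn Q) := by
  intro Q _ _ hQ hab hn h2 hfin
  exact @core Q (toLp hQ) hab hn h2 hfin

end Pool.Agent.Results.MP_f8f515_al.OrderBound
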